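import Pool.Agent.Helper57.SJ.Stmts2
import Pool.Agent.Helper59.SJ.TLT

/-! Row TLK: the sum over the primes in `(z, z^6]`, exceptional set of measure `T H^{-B}`
(helper59's row TLT with `H + 2` replaced by `(H + 2)^(B + 1)` in the choice of `k`). -/

set_option autoImplicit false

namespace Pool.Agent.Helper11.SJ

open MeasureTheory Set Filter Topology
open Pool.Agent.Helper57.QZ (zA Pz)
open Pool.Agent.Helper57.QZ.TL47 (sum_sq sum_abs)
open Pool.Agent.Helper57.SJ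
open Pool.Agent.Helper59.SJ (coef numeric)

theorem st_TLK (hSUP : ST_SUP) : ST_TLK := by
  intro ε hε C η hC hη
  have hε0 : 0 < ε := hε.1
  have hε1 : ε < 1 := by linarith [hε.2]
  obtain ⟨C', hC'⟩ : ∃ C' : ℝ, C' = C * (1 + 2 / ε) := ⟨_, rfl⟩
  have hC'0 : 0 < C' := by rw [hC']; positivity
  obtain ⟨S0, hS0⟩ : ∃ S0 : ℝ, S0 = ∑' n : ℕ, (n : ℝ) ^ (-(1 + ε / 2 / 2)) := ⟨_, rfl⟩
  have hS00 : 0 ≤ S0 := by rw [hS0]; exact tsum_nonneg fun n => by positivity
  obtain ⟨B0, hB0⟩ : ∃ B0 : ℝ, B0 = C' ^ 2 * (16 / (ε / 2) ^ 2) * S0 := ⟨_, rfl⟩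
  have hB00 : 0 ≤ B0 := by rw [hB0]; positivity
  obtain ⟨G, hG⟩ : ∃ G : ℝ, G = max 1 (4 * C' ^ 2 / η ^ 2) := ⟨_, rfl⟩
  refine ⟨max 3 (8 / ε), le_max_left _ _, fun A hA B hB => ?_⟩
  have hA3 : 3 ≤ A := (le_max_left _ _).trans hA
  have hAε : 8 ≤ A * ε := by
    have := (le_max_right 3 (8 / ε)).trans hA
    rwa [div_le_iff₀ hε0] at this
  have hB1 : 0 < B + 1 := by linarith
  obtain ⟨c, hc⟩ : ∃ c : ℝ, c = ε / 800 / (B + 1) := ⟨_, rfl⟩
  have hc0 : 0 < c := by rw [hc]; positivity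
  have hcB : (B + 1) * c = ε / 800 := by rw [hc]; field_simp
  have hc1 : c < 1 := by nlinarith
  refine ⟨c, ⟨hc0, hc1⟩, ?_⟩
  have hκ : (0 : ℝ) < 1 := one_pos
  -- the conditions on `L`
  have hlim : ∀ᶠ L : ℝ in atTop, 48 * Real.exp (306 / ε) * L ^ (38 * A + 1) ≤
      1 * Real.exp (L / 2) := by
    have h1 := (isLittleO_rpow_exp_pos_mul_atTop (38 * A + 1)
      (show (0 : ℝ) < 1 / 2 by norm_num)).bound
      (show 0 < 1 / (48 * Real.exp (306 / ε)) by positivity)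
    filter_upwards [h1, eventually_ge_atTop (1 : ℝ)] with L h2 h3
    rw [Real.norm_of_nonneg (by positivity), Real.norm_of_nonneg (Real.exp_pos _).le] at h2
    have h4 : (1 / 2 : ℝ) * L = L / 2 := by ring
    rw [h4, div_mul_eq_mul_div, le_div_iff₀ (by positivity)] at h2
    linarith
  have hlim2 : ∀ᶠ L : ℝ in atTop, 4 * Real.exp 2 ≤ 1 * Real.exp (L / 2) := by
    have h1 : Tendsto (fun L : ℝ => Real.exp (L / 2)) atTop atTop :=
      Real.tendsto_exp_atTop.comp (tendsto_id.atTop_div_const (by norm_num))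
    filter_upwards [h1.eventually_ge_atTop (4 * Real.exp 2 / 1)] with L h2
    rw [div_le_iff₀ hκ] at h2
    linarith
  have hlim3 : ∀ᶠ L : ℝ in atTop, max 1 (Real.log G) ≤ Real.log L :=
    Real.tendsto_log_atTop.eventually_ge_atTop _
  obtain ⟨L₀, hL₀⟩ := eventually_atTop.mp (hlim.and (hlim2.and (hlim3.and
    ((eventually_ge_atTop (5 : ℝ)).and ((eventually_ge_atTop (2 * B0 / η ^ 2)).and
    ((eventually_ge_atTop (24 / 1)).and (eventually_ge_atTop (1600 * (B + 1) / ε))))))))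
  refine ⟨max 4 (Real.exp L₀), le_max_left _ _, fun T hT H hH2' hHT a ha => ?_⟩
  have hH1 : 1 ≤ H := by linarith
  have hT4 : 4 ≤ T := (le_max_left _ _).trans hT
  have hT0 : 0 < T := by linarith
  obtain ⟨L, hL⟩ : ∃ L : ℝ, L = Real.log T := ⟨_, rfl⟩
  have hLL₀ : L₀ ≤ L := by
    rw [hL, Real.le_log_iff_exp_le hT0]
    exact (le_max_right _ _).trans hT
  obtain ⟨f1, f2, f3, f4, f5, f6, f7⟩ := hL₀ L hLL₀
  have hTL : Real.exp L = T := by rw [hL, Real.exp_log hT0]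
  have hL0 : 0 < L := by linarith
  obtain ⟨z, hz⟩ : ∃ z : ℕ, z = zA A T := ⟨_, rfl⟩
  rw [← hz] at ha ⊢
  have hLA1 : 1 ≤ L ^ A := Real.one_le_rpow (by linarith) (by linarith)
  have hzL : z = ⌊L ^ A⌋₊ := by rw [hz, zA, hL]
  have hz_le : (z : ℝ) ≤ L ^ A := by rw [hzL]; exact Nat.floor_le (by positivity)
  have hz1 : 1 ≤ z := by
    rw [hzL]
    exact Nat.le_floor (by simpa using hLA1)
  have hz_ge : L ^ A / 2 ≤ z := by
    have h1 : L ^ A < z + 1 := by rw [hzL]; exact Nat.lt_floor_add_one _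
    have h2 : (1 : ℝ) ≤ z := by exact_mod_cast hz1
    linarith
  have hH2 : 0 < H + 2 := by linarith
  -- the enlarged length
  obtain ⟨H', hH'⟩ : ∃ H' : ℝ, H' = (H + 2) ^ (B + 1) - 2 := ⟨_, rfl⟩
  have hH'2 : H' + 2 = (H + 2) ^ (B + 1) := by rw [hH']; ring
  have hH'0 : 0 < H' + 2 := by rw [hH'2]; positivity
  obtain ⟨h, hh⟩ : ∃ h : ℝ, h = Real.log (H' + 2) := ⟨_, rfl⟩
  have hh' : h = (B + 1) * Real.log (H + 2) := by
    rw [hh, hH'2, Real.log_rpow hH2]
  have hl0 : 0 ≤ Real.log (H + 2) := Real.log_nonneg (by linarith)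
  have hh0 : 0 ≤ h := by rw [hh']; positivity
  have hTc : T ^ c = Real.exp (c * L) := by
    rw [Real.rpow_def_of_pos hT0, hL, mul_comm]
  have hl1 : Real.log (H + 2) ≤ 2 + c * L := by
    have h1 : 1 ≤ T ^ c := Real.one_le_rpow (by linarith) hc0.le
    have h2 : H + 2 ≤ 3 * T ^ c := by linarith
    calc Real.log (H + 2) ≤ Real.log (3 * T ^ c) := Real.log_le_log hH2 h2
      _ = Real.log 3 + c * L := by
          rw [hTc, Real.log_mul (by norm_num) (Real.exp_pos _).ne', Real.log_exp]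
      _ ≤ 2 + c * L := by
          have := Real.log_le_sub_one_of_pos (show (0 : ℝ) < 3 by norm_num)
          linarith
  have hhc : h ≤ 2 + ε / 400 * L := by
    have h1 : h ≤ (B + 1) * (2 + c * L) := by
      rw [hh']
      exact mul_le_mul_of_nonneg_left hl1 hB1.le
    have h2 : (B + 1) * (2 + c * L) = 2 * (B + 1) + ε / 800 * L := by
      rw [mul_add, ← mul_assoc, hcB]
      ring
    have h3 : 2 * (B + 1) ≤ ε / 800 * L := by
      rw [div_le_iff₀ hε0] at f7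
      linarith
    linarith
  obtain ⟨k, hk⟩ : ∃ k : ℕ, k = ⌈8 * h / (ε * A * Real.log L)⌉₊ + 1 := ⟨_, rfl⟩
  have hnum := numeric (z := z) (k := k) (H := H') hε0 hε1 hA3 hAε hκ hη hB00 hC'0 hG rfl f4
    ((le_max_left _ _).trans f3) ((le_max_right _ _).trans f3) f5 f6 f1 f2 hz_le hz_ge hH'0 hh
    hh0 hhc hk
  have hHT2 : H + 2 ≤ T := by
    have h1 : Real.log (H + 2) ≤ h := by
      rw [hh']
      have : 1 * Real.log (H + 2) ≤ (B + 1) * Real.log (H + 2) :=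
        mul_le_mul_of_nonneg_right (by linarith) hl0
      linarith
    have h3 : h ≤ L := by
      have h2 : ε / 400 * L ≤ 1 / 400 * L := mul_le_mul_of_nonneg_right (by linarith) hL0.le
      linarith
    calc H + 2 = Real.exp (Real.log (H + 2)) := by rw [Real.exp_log hH2]
      _ ≤ Real.exp L := Real.exp_le_exp.mpr (h1.trans h3)
      _ = T := hTL
  have hcoef := coef hε0 hC z a ha
  rw [← hC'] at hcoef
  have hsq := sum_sq (ε / 2) C' (by positivity) hC'0 z hz1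
    (fun p => ((‖a p‖ * (1 + Real.log p) : ℝ) : ℂ)) hcoef
  have hab := sum_abs (ε / 2) C' (by positivity) hC'0 z hz1
    (fun p => ((‖a p‖ * (1 + Real.log p) : ℝ) : ℂ)) hcoef
  rw [← hS0, ← hB0] at hsq
  have hnn : ∀ p ∈ Pz z, ‖((‖a p‖ * (1 + Real.log p) : ℝ) : ℂ)‖ = ‖a p‖ * (1 + Real.log p) := by
    intro p hp
    rw [Pz, Finset.mem_filter, Finset.mem_Icc] at hp
    have hp1 : (1 : ℝ) ≤ p := by exact_mod_cast (by omega : 1 ≤ p)
    have hl : 0 ≤ Real.log p := Real.log_nonneg hp1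
    rw [Complex.norm_real, Real.norm_of_nonneg (by positivity)]
  obtain ⟨E, hE1, hE2, hE3⟩ := hSUP (Pz z) a ((z : ℝ) ^ 6) (B0 * (z : ℝ) ^ (-(ε / 2)))
    (2 * C' * (z : ℝ) ^ 6) η H T k (fun p hp => (Finset.mem_filter.mp hp).2)
    (fun p hp => by
      rw [Pz, Finset.mem_filter, Finset.mem_Icc] at hp
      exact_mod_cast hp.1.2) (one_le_pow₀ (by exact_mod_cast hz1)) (by omega) hη hH1 hHT2
    (by
      refine le_trans (le_of_eq ?_) hsq
      exact Finset.sum_congr rfl fun p hp => by rw [hnn p hp])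
    (by
      refine le_trans (le_of_eq ?_) hab
      exact Finset.sum_congr rfl fun p hp => by rw [hnn p hp])
  refine ⟨E, hE1, hE2.trans ?_, hE3⟩
  rw [hTL, one_mul, hH'2, Real.rpow_add hH2, Real.rpow_one] at hnum
  -- divide by `(H + 2) ^ B`
  have hP : 0 < (H + 2) ^ B := by positivity
  have hlow : (H + 2) ^ (-B) ≤ H ^ (-B) :=
    Real.rpow_le_rpow_of_nonpos (by linarith) (by linarith) (by linarith)
  refine le_trans ?_ (mul_le_mul_of_nonneg_left hlow hT0.le)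
  rw [Real.rpow_neg hH2.le, ← div_eq_mul_inv, le_div_iff₀ hP]
  refine le_trans (le_of_eq ?_) hnum
  ring

end Pool.Agent.Helper11.SJ
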